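import Pool.Agent.U243.DB.Stm

set_option autoImplicit false

/-! Project DB, part APPROX: `‖χ - χ * η_s‖₁ ≤ 2 ∫_0^s V_{z̄ η}(r) dr`. -/

open MeasureTheory Set Filter Metric
open scoped ENNReal NNReal ContDiff Topology

namespace Pool.Agent.U243.DB

lemma ap_radial (η : ℂ → ℝ) (hη : IsRadial η) (v : ℂ) : fderiv ℝ η v (Complex.I * v) = 0 := by
  have hd : DifferentiableAt ℝ η v :=
    (hη.mollifier.smooth.differentiable (by norm_num)).differentiableAt
  have h1 : HasDerivAt (fun θ : ℝ => Complex.exp ((θ : ℂ) * Complex.I) * v) (Complex.I * v) 0 := by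
    have h2 : HasDerivAt (fun θ : ℝ => Complex.exp ((θ : ℂ) * Complex.I)) (Complex.I) 0 := by
      have h3 : HasDerivAt (fun θ : ℝ => ((θ : ℂ) * Complex.I)) (Complex.I) 0 := by
        simpa using (Complex.ofRealCLM.hasDerivAt (x := (0:ℝ))).mul_const Complex.I
      have h4 := h3.cexp
      simpa using h4
    exact h2.mul_const v
  have h5 : HasDerivAt (fun θ : ℝ => η (Complex.exp ((θ : ℂ) * Complex.I) * v))
      (fderiv ℝ η v (Complex.I * v)) 0 := by
    have h6 : HasFDerivAt η (fderiv ℝ η v)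
        ((fun θ : ℝ => Complex.exp ((θ : ℂ) * Complex.I) * v) 0) := by
      simpa using hd.hasFDerivAt
    exact h6.comp_hasDerivAt (0:ℝ) h1
  have h7 : (fun θ : ℝ => η (Complex.exp ((θ : ℂ) * Complex.I) * v)) = fun _ => η v := by
    funext θ
    exact hη.radial _ _ (Complex.norm_exp_ofReal_mul_I θ)
  rw [h7] at h5
  exact h5.unique (hasDerivAt_const _ _)

lemma ap_dbar (η : ℂ → ℝ) (hη : IsRadial η) (v : ℂ) :
    dbar (fun z => (starRingEnd ℂ) z * (η z : ℂ)) v =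
      ((η v + (1 / 2) * fderiv ℝ η v v : ℝ) : ℂ) := by
  have hd : DifferentiableAt ℝ η v :=
    (hη.mollifier.smooth.differentiable (by norm_num)).differentiableAt
  have h1 : HasFDerivAt (fun z : ℂ => (η z : ℂ)) (Complex.ofRealCLM.comp (fderiv ℝ η v)) v :=
    Complex.ofRealCLM.hasFDerivAt.comp v hd.hasFDerivAt
  have h2 : HasFDerivAt (fun z : ℂ => (starRingEnd ℂ) z) (Complex.conjCLE : ℂ →L[ℝ] ℂ) v :=
    Complex.conjCLE.hasFDerivAt
  have h3 := h2.mul h1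
  have h4 : fderiv ℝ (fun z => (starRingEnd ℂ) z * (η z : ℂ)) v = _ := h3.fderiv
  have hv : fderiv ℝ η v v = v.re * fderiv ℝ η v 1 + v.im * fderiv ℝ η v Complex.I := by
    have e : v = v.re • (1 : ℂ) + v.im • Complex.I := by
      apply Complex.ext <;> simp
    conv_lhs => rw [show fderiv ℝ η v v = fderiv ℝ η v (v.re • (1 : ℂ) + v.im • Complex.I) by
      rw [← e]]
    rw [map_add, map_smul, map_smul, smul_eq_mul, smul_eq_mul]
  have hr : v.re * fderiv ℝ η v Complex.I - v.im * fderiv ℝ η v 1 = 0 := by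
    have e : Complex.I * v = v.re • Complex.I - v.im • (1 : ℂ) := by
      apply Complex.ext <;> simp
    have := ap_radial η hη v
    rw [e, map_sub, map_smul, map_smul, smul_eq_mul, smul_eq_mul] at this
    exact this
  unfold dbar
  rw [h4, hv]
  set a := fderiv ℝ η v 1
  set b := fderiv ℝ η v Complex.I
  apply Complex.ext
  · simp [a, b]
    ring
  · simp [a, b]
    linarith

lemma ap_hasDeriv (η : ℂ → ℝ) (hη : IsRadial η) (ψ : ℂ → ℂ)
    (hψ : ψ = fun z => (starRingEnd ℂ) z * (η z : ℂ))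
    (hD : ∀ (s : ℝ) (z : ℂ), dbar (sc ψ s) z = ((s⁻¹ ^ 3 : ℝ) : ℂ) * dbar ψ (s⁻¹ • z))
    (u : ℂ) (x : ℝ) (hx : 0 < x) :
    HasDerivAt (fun x : ℝ => ((x⁻¹ ^ 2 * η (x⁻¹ • u) : ℝ) : ℂ)) (-2 * dbar (sc ψ x) u) x := by
  have hd : Differentiable ℝ η := hη.mollifier.smooth.differentiable (by norm_num)
  have h1 : HasDerivAt (fun x : ℝ => x⁻¹) (-(x^2)⁻¹) x := hasDerivAt_inv hx.ne'
  have h2 : HasDerivAt (fun x:ℝ => x⁻¹ • u) ((-(x^2)⁻¹) • u) x := h1.smul_const u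
  have h3 : HasDerivAt (fun x:ℝ => η (x⁻¹ • u)) (fderiv ℝ η (x⁻¹•u) ((-(x^2)⁻¹) • u)) x :=
    (hd _).hasFDerivAt.comp_hasDerivAt x h2
  have h4 := ((h1.fun_pow 2).fun_mul h3).ofReal_comp
  convert h4 using 1
  rw [hD, hψ, ap_dbar η hη]
  have e : (-(x^2)⁻¹) • u = (-x⁻¹) • (x⁻¹ • u) := by
    rw [smul_smul]; congr 1; ring
  rw [e]
  generalize x⁻¹ • u = v
  rw [map_smul, smul_eq_mul]
  push_cast
  have hx' : (x : ℂ) ≠ 0 := by exact_mod_cast hx.ne'
  field_simp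
  ring

lemma ap_dbar_zero (ψ : ℂ → ℂ) (h : ∀ z, 1 ≤ ‖z‖ → ψ z = 0) (z : ℂ) (hz : 1 < ‖z‖) :
    dbar ψ z = 0 := by
  have h1 : ψ =ᶠ[𝓝 z] fun _ => 0 := by
    have : {w : ℂ | 1 < ‖w‖} ∈ 𝓝 z := (isOpen_lt continuous_const continuous_norm).mem_nhds hz
    filter_upwards [this] with w hw
    exact h w (le_of_lt hw)
  unfold dbar
  rw [h1.fderiv_eq]
  simp

lemma ap_density (hS : S_DBSC) (η : ℂ → ℝ) (hη : IsRadial η) (ψ : ℂ → ℂ)
    (hψ : ψ = fun z => (starRingEnd ℂ) z * (η z : ℂ)) (hk : IsKer ψ) (Ω : Set ℂ)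
    (z : ℂ) (r : ℝ) (hr : 0 < r) :
    HasDerivAt (fun r => ((density η Ω r z : ℝ) : ℂ)) (-2 * U ψ Ω r z) r := by
  obtain ⟨hD, ⟨hk1, hk2⟩, -, -⟩ := hS ψ hk
  obtain ⟨K, hK⟩ := hk2.exists_bound_of_continuous hk1.continuous
  have hK0 : 0 ≤ K := (norm_nonneg _).trans (hK 0)
  have hψ0 : ∀ z, 1 ≤ ‖z‖ → ψ z = 0 := by
    intro z hz
    rw [hψ]
    simp only
    rw [hη.support z hz]
    simp
  have hη1 : Continuous η := hη.mollifier.smooth.continuous
  have e1 : (fun r => ((density η Ω r z : ℝ) : ℂ)) =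
      fun r => ∫ w in Ω, ((r⁻¹ ^ 2 * η (r⁻¹ • (z - w)) : ℝ) : ℂ) := by
    funext r
    unfold density
    rw [← integral_complex_ofReal]
  have e2 : -2 * U ψ Ω r z = ∫ w in Ω, -2 * dbar (sc ψ r) (z - w) := by
    unfold U
    rw [integral_const_mul]
  rw [e1, e2]
  have hball : ball r (r / 2) ∈ 𝓝 r := ball_mem_nhds r (by linarith)
  refine (hasDerivAt_integral_of_dominated_loc_of_deriv_le (𝕜 := ℝ) (E := ℂ)
    (μ := (volume : Measure ℂ).restrict Ω) (x₀ := r) (s := ball r (r / 2))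
    (F := fun (r : ℝ) (w : ℂ) => ((r⁻¹ ^ 2 * η (r⁻¹ • (z - w)) : ℝ) : ℂ))
    (F' := fun (r : ℝ) (w : ℂ) => -2 * dbar (sc ψ r) (z - w))
    (bound := (closedBall z (2 * r)).indicator fun _ => 2 * ((2 / r) ^ 3 * K))
    hball ?_ ?_ ?_ ?_ ?_ ?_).2
  · refine Eventually.of_forall fun x => Continuous.aestronglyMeasurable ?_
    fun_prop
  · have hc : Continuous (fun w => ((r⁻¹ ^ 2 * η (r⁻¹ • (z - w)) : ℝ) : ℂ)) := by fun_prop
    have hs : HasCompactSupport (fun w => ((r⁻¹ ^ 2 * η (r⁻¹ • (z - w)) : ℝ) : ℂ)) := by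
      refine HasCompactSupport.of_support_subset_isCompact (isCompact_closedBall z r) ?_
      intro w hw
      rw [Function.mem_support] at hw
      by_contra hn
      apply hw
      rw [mem_closedBall, not_le, dist_comm, dist_eq_norm] at hn
      have : 1 ≤ ‖r⁻¹ • (z - w)‖ := by
        rw [norm_smul, norm_inv, Real.norm_of_nonneg hr.le, inv_mul_eq_div, le_div_iff₀ hr]
        linarith
      rw [hη.support _ this]
      simp
    exact (hc.integrable_of_hasCompactSupport hs).restrict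
  · refine Continuous.aestronglyMeasurable ?_
    simp_rw [hD]
    have := hk1.continuous
    fun_prop
  · refine Eventually.of_forall fun w x hx => ?_
    rw [mem_ball, Real.dist_eq, abs_lt] at hx
    have hx0 : 0 < x := by linarith [hx.1]
    by_cases hw : w ∈ closedBall z (2 * r)
    · rw [indicator_of_mem hw, hD, norm_mul, norm_mul, Complex.norm_real]
      have h1 : ‖(-2 : ℂ)‖ = 2 := by simp
      have h2 : ‖x⁻¹ ^ 3‖ ≤ (2 / r) ^ 3 := by
        rw [norm_pow, norm_inv, Real.norm_of_nonneg hx0.le]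
        refine pow_le_pow_left₀ (by positivity) ?_ 3
        rw [inv_eq_one_div, div_le_div_iff₀ hx0 hr]
        linarith [hx.1]
      rw [h1]
      have h3 := hK (x⁻¹ • (z - w))
      have h4 : ‖x⁻¹ ^ 3‖ * ‖dbar ψ (x⁻¹ • (z - w))‖ ≤ (2 / r) ^ 3 * K :=
        mul_le_mul h2 h3 (norm_nonneg _) (by positivity)
      linarith
    · rw [indicator_of_notMem hw, hD]
      rw [mem_closedBall, not_le, dist_comm, dist_eq_norm] at hw
      have : 1 < ‖x⁻¹ • (z - w)‖ := by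
        rw [norm_smul, norm_inv, Real.norm_of_nonneg hx0.le, inv_mul_eq_div, lt_div_iff₀ hx0]
        linarith [hx.2]
      rw [ap_dbar_zero ψ hψ0 _ this]
      simp
  · refine Integrable.restrict ?_
    rw [integrable_indicator_iff measurableSet_closedBall]
    exact integrableOn_const (isCompact_closedBall z (2 * r)).measure_lt_top.ne
  · refine Eventually.of_forall fun w x hx => ?_
    rw [mem_ball, Real.dist_eq, abs_lt] at hx
    have hx0 : 0 < x := by linarith [hx.1]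
    exact ap_hasDeriv η hη ψ hψ hD (z - w) x hx0

lemma ap_ftc (u : ℝ → ℂ) (d : ℝ → ℝ) (hm : Measurable u)
    (hder : ∀ r, 0 < r → HasDerivAt (fun r => ((d r : ℝ) : ℂ)) (-2 * u r) r) (a s : ℝ)
    (ha : 0 < a) (has : a < s) (htop : ¬ ∫⁻ r in Ioo 0 s, ‖u r‖ₑ = ⊤) :
    ‖d a - d s‖ₑ ≤ 2 * ∫⁻ r in Ioo 0 s, ‖u r‖ₑ := by
  have hint : IntegrableOn u (Ioo 0 s) :=
    ⟨hm.aestronglyMeasurable, lt_top_iff_ne_top.2 htop⟩
  have hsub : Ioc a s ⊆ Ioc 0 s := Ioc_subset_Ioc_left ha.le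
  have hint2 : IntegrableOn u (Ioc 0 s) :=
    hint.congr_set_ae Ioo_ae_eq_Ioc.symm
  have hint3 : IntervalIntegrable (fun r => -2 * u r) volume a s := by
    rw [intervalIntegrable_iff_integrableOn_Ioc_of_le has.le]
    exact (hint2.mono_set hsub).const_mul (-2)
  have hftc : ∫ r in a..s, -2 * u r = ((d s : ℝ) : ℂ) - ((d a : ℝ) : ℂ) := by
    refine intervalIntegral.integral_eq_sub_of_hasDerivAt (f := fun r => ((d r : ℝ) : ℂ))
      (fun r hr => ?_) hint3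
    rw [uIcc_of_le has.le] at hr
    exact hder r (ha.trans_le hr.1)
  have e1 : ‖d a - d s‖ₑ = ‖((d s : ℝ) : ℂ) - ((d a : ℝ) : ℂ)‖ₑ := by
    have h : ‖d a - d s‖ = ‖((d s : ℝ) : ℂ) - ((d a : ℝ) : ℂ)‖ := by
      rw [← Complex.ofReal_sub, Complex.norm_real, norm_sub_rev]
    rw [← ofReal_norm, ← ofReal_norm, h]
  rw [e1, ← hftc, intervalIntegral.integral_of_le has.le]
  refine (enorm_integral_le_lintegral_enorm _).trans ?_
  have e2 : ∀ r, ‖-2 * u r‖ₑ = 2 * ‖u r‖ₑ := by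
    intro r
    rw [enorm_mul]
    congr 1
    rw [← ofReal_norm]
    simp
  calc ∫⁻ r in Ioc a s, ‖-2 * u r‖ₑ = ∫⁻ r in Ioc a s, 2 * ‖u r‖ₑ :=
        lintegral_congr fun r => e2 r
    _ = 2 * ∫⁻ r in Ioc a s, ‖u r‖ₑ := lintegral_const_mul _ hm.enorm
    _ ≤ 2 * ∫⁻ r in Ioc 0 s, ‖u r‖ₑ := mul_le_mul_right (lintegral_mono_set hsub) _
    _ = 2 * ∫⁻ r in Ioo 0 s, ‖u r‖ₑ := by rw [restrict_Ioo_eq_restrict_Ioc]

lemma ap_mz (u : ℝ → ℂ → ℂ) (hm1 : Measurable (fun p : ℝ × ℂ => u p.1 p.2)) (z : ℂ) :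
    Measurable (fun r : ℝ => u r z) := by
  have hg : Measurable (fun r : ℝ => ((r, z) : ℝ × ℂ)) := by fun_prop
  exact hm1.comp hg

lemma ap_point (hS : S_DBSC) (η : ℂ → ℝ) (hη : IsRadial η) (ψ : ℂ → ℂ)
    (hψ : ψ = fun z => (starRingEnd ℂ) z * (η z : ℂ)) (hk : IsKer ψ) (Ω : Set ℂ)
    (hΩ : MeasurableSet Ω) (z : ℂ) (a s : ℝ) (ha : 0 < a) (has : a < s) :
    ‖density η Ω a z - density η Ω s z‖ₑ ≤ 2 * ∫⁻ r in Ioo 0 s, ‖U ψ Ω r z‖ₑ := by
  by_cases htop : ∫⁻ r in Ioo 0 s, ‖U ψ Ω r z‖ₑ = ⊤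
  · rw [htop, ENNReal.mul_top (by norm_num)]
    exact le_top
  obtain ⟨-, -, -, hm⟩ := hS ψ hk
  obtain ⟨hm1, -, -⟩ := hm Ω hΩ
  have hmz := ap_mz (U ψ Ω) hm1 z
  have hder : ∀ r, 0 < r → HasDerivAt (fun r => ((density η Ω r z : ℝ) : ℂ)) (-2 * U ψ Ω r z) r :=
    fun r hr => ap_density hS η hη ψ hψ hk Ω z r hr
  generalize hu : (fun r => U ψ Ω r z) = u at hmz
  have hu' : ∀ r, U ψ Ω r z = u r := fun r => by rw [← hu]
  simp only [hu'] at htop hder ⊢
  generalize hd : (fun r => density η Ω r z) = d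
  have hd' : ∀ r, density η Ω r z = d r := fun r => by rw [← hd]
  simp only [hd'] at hder ⊢
  exact ap_ftc u d hmz hder a s ha has htop

lemma ap_limit (η : ℂ → ℝ) (hη : IsRadial η) (Ω : Set ℂ) (hΩ : MeasurableSet Ω) :
    ∀ᵐ z : ℂ, Tendsto (fun a => density η Ω a z) (𝓝[>] 0)
      (𝓝 (Ω.indicator (fun _ => (1 : ℝ)) z)) := by
  have hη1 : Continuous η := hη.mollifier.smooth.continuous
  obtain ⟨B, hB⟩ := hη.mollifier.compact.exists_bound_of_continuous hη1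
  have hloc : LocallyIntegrable (Ω.indicator (fun _ => (1 : ℝ))) (volume : Measure ℂ) := by
    have : LocallyIntegrable (fun _ : ℂ => (1 : ℝ)) volume := locallyIntegrable_const 1
    exact this.indicator hΩ
  filter_upwards [(Besicovitch.vitaliFamily (volume : Measure ℂ)).ae_tendsto_average_norm_sub hloc]
    with z hz
  have h1 := hz.comp (Besicovitch.tendsto_filterAt (volume : Measure ℂ) z)
  have h2 : (fun a => density η Ω a z) = fun a : ℝ => ∫ w, (a⁻¹ ^ 2 * η (a⁻¹ • (z - w))) •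
      Ω.indicator (fun _ => (1 : ℝ)) w := by
    funext a
    unfold density
    rw [← integral_indicator hΩ]
    congr 1
    funext w
    by_cases hw : w ∈ Ω
    · simp [hw]
    · simp [hw]
  rw [h2]
  refine tendsto_integral_smul_of_tendsto_average_norm_sub (B * Real.pi) h1 ?_ ?_ ?_ ?_
  · filter_upwards with a using hloc.integrableOn_isCompact (isCompact_closedBall _ _)
  · refine tendsto_const_nhds.congr' ?_
    filter_upwards [self_mem_nhdsWithin] with a ha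
    have ha' : (0 : ℝ) < a := ha
    rw [integral_sub_left_eq_self (fun w => a⁻¹ ^ 2 * η (a⁻¹ • w)) volume z, integral_const_mul,
      Measure.integral_comp_inv_smul]
    rw [hη.mollifier.integral, Complex.finrank_real_complex, abs_of_nonneg (by positivity)]
    simp
    field_simp
  · filter_upwards [self_mem_nhdsWithin] with a ha
    have ha' : (0 : ℝ) < a := ha
    intro w hw
    rw [Function.mem_support] at hw
    by_contra hn
    apply hw
    rw [mem_closedBall, not_le, dist_comm, dist_eq_norm] at hn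
    have : 1 ≤ ‖a⁻¹ • (z - w)‖ := by
      rw [norm_smul, norm_inv, Real.norm_of_nonneg ha'.le, inv_mul_eq_div, le_div_iff₀ ha']
      linarith
    rw [hη.support _ this]
    simp
  · filter_upwards [self_mem_nhdsWithin] with a ha
    have ha' : (0 : ℝ) < a := ha
    intro w
    have hvol : (volume : Measure ℂ).real (closedBall z a) = a ^ 2 * Real.pi := by
      rw [Measure.real, Complex.volume_closedBall]
      simp [ha'.le]
    rw [hvol, abs_mul, abs_of_nonneg (by positivity : (0:ℝ) ≤ a⁻¹ ^ 2)]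
    have h5 := hB (a⁻¹ • (z - w))
    rw [Real.norm_eq_abs] at h5
    have e3 : B * Real.pi / (a ^ 2 * Real.pi) = a⁻¹ ^ 2 * B := by
      have := Real.pi_pos
      field_simp
    rw [e3]
    gcongr

theorem t_APPROX : S_DBSC → S_APPROX := by
  intro hS η Ω s hη hΩ hs
  set ψ : ℂ → ℂ := fun z => (starRingEnd ℂ) z * (η z : ℂ) with hψ
  have hk : IsKer ψ := by
    refine ⟨?_, ?_⟩
    · have h1 : ContDiff ℝ ∞ (fun z : ℂ => (starRingEnd ℂ) z) := Complex.conjCLE.contDiff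
      have h2 : ContDiff ℝ ∞ (fun z : ℂ => (η z : ℂ)) :=
        Complex.ofRealCLM.contDiff.comp hη.mollifier.smooth
      exact h1.mul h2
    · have : HasCompactSupport (fun z : ℂ => (η z : ℂ)) := by
        refine hη.mollifier.compact.comp_left (g := fun x : ℝ => (x : ℂ)) (by simp)
      exact this.mul_left
  obtain ⟨-, -, -, hm⟩ := hS ψ hk
  obtain ⟨hm1, -, -⟩ := hm Ω hΩ
  have hpt : ∀ᵐ z : ℂ, ‖Ω.indicator (fun _ => (1 : ℝ)) z - density η Ω s z‖ₑ ≤
      2 * ∫⁻ r in Ioo 0 s, ‖U ψ Ω r z‖ₑ := by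
    filter_upwards [ap_limit η hη Ω hΩ] with z hz
    have h1 : Tendsto (fun a => ‖density η Ω a z - density η Ω s z‖ₑ) (𝓝[>] 0)
        (𝓝 ‖Ω.indicator (fun _ => (1 : ℝ)) z - density η Ω s z‖ₑ) :=
      (hz.sub_const _).enorm
    refine le_of_tendsto h1 ?_
    filter_upwards [Ioo_mem_nhdsGT hs] with a ha
    exact ap_point hS η hη ψ hψ hk Ω hΩ z a s ha.1 ha.2
  have hjm : Measurable (fun p : ℂ × ℝ => ‖U ψ Ω p.2 p.1‖ₑ) :=
    (hm1.comp measurable_swap).enorm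
  calc ∫⁻ z, ‖Ω.indicator (fun _ => (1 : ℝ)) z - density η Ω s z‖ₑ
      ≤ ∫⁻ z, 2 * ∫⁻ r in Ioo 0 s, ‖U ψ Ω r z‖ₑ := lintegral_mono_ae hpt
    _ = 2 * ∫⁻ z, ∫⁻ r in Ioo 0 s, ‖U ψ Ω r z‖ₑ := by
        rw [lintegral_const_mul _ hjm.lintegral_prod_right]
    _ = 2 * ∫⁻ r in Ioo 0 s, ∫⁻ z, ‖U ψ Ω r z‖ₑ := by
        rw [lintegral_lintegral_swap hjm.aemeasurable]
    _ = 2 * ∫⁻ r in Ioo 0 s, V ψ Ω r := rfl

end Pool.Agent.U243.DB
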